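import Mathlib
import Pool.Agent.E8helper3.PT.Stm

/-!
# Dimensions of the spaces of Hankel and of symmetric matrices, examples of small rank
-/

set_option autoImplicit false

namespace Pool.Agent.E8helper36.PT

open Polynomial Module Pool.Agent.E8helper3.PT

lemma rank_le_of_rows (n s : ℕ) (hs : s ≤ n) (A : Matrix (Fin n) (Fin n) ℚ)
    (h : ∀ i j : Fin n, s ≤ (i : ℕ) → A i j = 0) : A.rank ≤ s := by
  set B : Matrix (Fin n) (Fin s) ℚ := Matrix.of fun i k => if (i : ℕ) = k then 1 else 0 with hB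
  set C : Matrix (Fin s) (Fin n) ℚ := Matrix.of fun k j => A (Fin.castLE hs k) j with hC
  have hBC : A = B * C := by
    ext i j
    rw [Matrix.mul_apply]
    by_cases hi : (i : ℕ) < s
    · rw [Finset.sum_eq_single (⟨i, hi⟩ : Fin s)]
      · have h1 : Fin.castLE hs (⟨i, hi⟩ : Fin s) = i := by
          apply Fin.ext
          rfl
        simp [hB, hC, h1]
      · intro k _ hk
        have h1 : ¬ ((i : ℕ) = k) := by
          intro h2
          apply hk
          apply Fin.ext
          exact h2.symm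
        simp [hB, h1]
      · intro h1
        exact absurd (Finset.mem_univ _) h1
    · rw [h i j (not_lt.1 hi)]
      symm
      apply Finset.sum_eq_zero
      intro k _
      have h1 : ¬ ((i : ℕ) = k) := by
        intro h2
        apply hi
        rw [h2]
        exact k.2
      simp [hB, h1]
  rw [hBC]
  calc (B * C).rank ≤ B.rank := Matrix.rank_mul_le_left B C
    _ ≤ s := by
      have := Matrix.rank_le_width B
      exact this

/-- the Hankel matrix of a sequence -/
def hk (n : ℕ) : (Fin (2 * n - 1) → ℚ) →ₗ[ℚ] hankel n where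
  toFun h := ⟨Matrix.of fun i j : Fin n => h ⟨(i : ℕ) + j, by omega⟩, by
    intro i j i' j' hij
    simp only [Matrix.of_apply]
    congr 1
    apply Fin.ext
    exact hij⟩
  map_add' := by
    intro f g
    rfl
  map_smul' := by
    intro c f
    rfl

lemma hk_inj (n : ℕ) : Function.Injective (hk n) := by
  intro f g hfg
  funext m
  have hm : (m : ℕ) < 2 * n - 1 := m.2
  have h1 : ((hk n f : hankel n) : Matrix (Fin n) (Fin n) ℚ)
      ⟨min (m : ℕ) (n - 1), by omega⟩ ⟨(m : ℕ) - min (m : ℕ) (n - 1), by omega⟩ =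
      ((hk n g : hankel n) : Matrix (Fin n) (Fin n) ℚ)
      ⟨min (m : ℕ) (n - 1), by omega⟩ ⟨(m : ℕ) - min (m : ℕ) (n - 1), by omega⟩ := by rw [hfg]
  have h2 : ∀ f : Fin (2 * n - 1) → ℚ, ((hk n f : hankel n) : Matrix (Fin n) (Fin n) ℚ)
      ⟨min (m : ℕ) (n - 1), by omega⟩ ⟨(m : ℕ) - min (m : ℕ) (n - 1), by omega⟩ = f m := by
    intro f
    show f _ = f m
    congr 1
    apply Fin.ext
    show min (m : ℕ) (n - 1) + (m - min (m : ℕ) (n - 1)) = m
    omega
  rw [h2, h2] at h1
  exact h1

lemma hk_surj (n : ℕ) : Function.Surjective (hk n) := by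
  intro A
  refine ⟨fun m => (A : Matrix (Fin n) (Fin n) ℚ) ⟨min (m : ℕ) (n - 1), by omega⟩
    ⟨(m : ℕ) - min (m : ℕ) (n - 1), by omega⟩, ?_⟩
  apply Subtype.ext
  ext i j
  refine A.2 _ _ _ _ ?_
  show min ((i : ℕ) + j) (n - 1) + ((i : ℕ) + j - min ((i : ℕ) + j) (n - 1)) = i + j
  omega

/-- Hankel matrices with small support -/
def hs (n s : ℕ) : (Fin s → ℚ) →ₗ[ℚ] Matrix (Fin n) (Fin n) ℚ where
  toFun h := Matrix.of fun i j : Fin n => if h' : (i : ℕ) + j < s then h ⟨(i : ℕ) + j, h'⟩ else 0
  map_add' := by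
    intro f g
    ext i j
    simp only [Matrix.of_apply, Matrix.add_apply, Pi.add_apply]
    split_ifs
    · rfl
    · simp
  map_smul' := by
    intro c f
    ext i j
    simp only [Matrix.of_apply, Matrix.smul_apply, Pi.smul_apply]
    split_ifs
    · rfl
    · simp

theorem hd : S_HD := by
  constructor
  · intro n hn
    have h1 := (LinearEquiv.ofBijective (hk n) ⟨hk_inj n, hk_surj n⟩).finrank_eq
    rw [← h1]
    simp
  · intro n s hsn
    refine ⟨LinearMap.range (hs n s), ?_, ?_, ?_⟩
    · rintro _ ⟨f, rfl⟩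
      intro i j i' j' hij
      simp only [hs, LinearMap.coe_mk, AddHom.coe_mk, Matrix.of_apply]
      by_cases h1 : (i : ℕ) + j < s
      · have h2 : (i' : ℕ) + j' < s := by omega
        rw [dif_pos h1, dif_pos h2]
        congr 1
        apply Fin.ext
        exact hij
      · have h2 : ¬ (i' : ℕ) + j' < s := by omega
        rw [dif_neg h1, dif_neg h2]
    · rintro _ ⟨f, rfl⟩
      apply rank_le_of_rows n s hsn
      intro i j hi
      simp only [hs, LinearMap.coe_mk, AddHom.coe_mk, Matrix.of_apply]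
      rw [dif_neg (by omega)]
    · have hinj : Function.Injective (hs n s) := by
        intro f g hfg
        funext m
        have hm : (m : ℕ) < s := m.2
        have h2 : ∀ f : Fin s → ℚ, hs n s f ⟨m, by omega⟩ ⟨0, by omega⟩ = f m := by
          intro f
          simp only [hs, LinearMap.coe_mk, AddHom.coe_mk, Matrix.of_apply]
          rw [dif_pos (by omega)]
          congr 1
        rw [← h2 f, ← h2 g, hfg]
      rw [LinearMap.finrank_range_of_inj hinj]
      simp

/-- the symmetric matrix of a function on unordered pairs -/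
def sk (n : ℕ) : (Sym2 (Fin n) → ℚ) →ₗ[ℚ] sym n where
  toFun f := ⟨Matrix.of fun i j : Fin n => f s(i, j), by
    intro i j
    simp only [Matrix.of_apply]
    rw [Sym2.eq_swap]⟩
  map_add' := by
    intro f g
    rfl
  map_smul' := by
    intro c f
    rfl

lemma sk_inj (n : ℕ) : Function.Injective (sk n) := by
  intro f g hfg
  funext z
  induction z using Sym2.ind with
  | _ i j =>
    have h1 : ((sk n f : sym n) : Matrix (Fin n) (Fin n) ℚ) i j =
      ((sk n g : sym n) : Matrix (Fin n) (Fin n) ℚ) i j := by rw [hfg]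
    exact h1

lemma sk_surj (n : ℕ) : Function.Surjective (sk n) := by
  intro A
  refine ⟨Sym2.lift ⟨fun i j => (A : Matrix (Fin n) (Fin n) ℚ) i j, fun i j => A.2 i j⟩, ?_⟩
  apply Subtype.ext
  ext i j
  rfl

lemma finrank_sym (n : ℕ) : 2 * finrank ℚ (sym n) = n * (n + 1) := by
  have h1 := (LinearEquiv.ofBijective (sk n) ⟨sk_inj n, sk_surj n⟩).finrank_eq
  rw [← h1, Module.finrank_fintype_fun_eq_card, Sym2.card, Fintype.card_fin,
    Nat.choose_two_right, Nat.add_sub_cancel]
  have h2 : Even ((n + 1) * n) := by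
    rw [mul_comm]
    exact Nat.even_mul_succ_self n
  rw [Nat.two_mul_div_two_of_even h2, mul_comm]

/-- extension by zero -/
def ex (n s : ℕ) : Matrix (Fin s) (Fin s) ℚ →ₗ[ℚ] Matrix (Fin n) (Fin n) ℚ where
  toFun A := Matrix.of fun i j : Fin n =>
    if h : (i : ℕ) < s ∧ (j : ℕ) < s then A ⟨i, h.1⟩ ⟨j, h.2⟩ else 0
  map_add' := by
    intro f g
    ext i j
    simp only [Matrix.of_apply, Matrix.add_apply]
    split_ifs
    · rfl
    · simp
  map_smul' := by
    intro c f
    ext i j
    simp only [Matrix.of_apply, Matrix.smul_apply]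
    split_ifs
    · rfl
    · simp

theorem sd : S_SD := by
  refine ⟨finrank_sym, ?_⟩
  intro n s hsn
  have hinj : Function.Injective (ex n s) := by
    intro A B hAB
    ext i j
    have hi := i.2
    have hj := j.2
    have h2 : ∀ A : Matrix (Fin s) (Fin s) ℚ,
        ex n s A ⟨i, by omega⟩ ⟨j, by omega⟩ = A i j := by
      intro A
      simp only [ex, LinearMap.coe_mk, AddHom.coe_mk, Matrix.of_apply]
      rw [dif_pos ⟨hi, hj⟩]
    rw [← h2 A, ← h2 B, hAB]
  refine ⟨(sym s).map (ex n s), ?_, ?_, ?_⟩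
  · rintro _ ⟨A, hA, rfl⟩
    intro i j
    simp only [ex, LinearMap.coe_mk, AddHom.coe_mk, Matrix.of_apply]
    by_cases h1 : (i : ℕ) < s ∧ (j : ℕ) < s
    · rw [dif_pos h1, dif_pos ⟨h1.2, h1.1⟩]
      exact hA _ _
    · rw [dif_neg h1, dif_neg (fun h => h1 ⟨h.2, h.1⟩)]
  · rintro _ ⟨A, hA, rfl⟩
    apply rank_le_of_rows n s hsn
    intro i j hi
    simp only [ex, LinearMap.coe_mk, AddHom.coe_mk, Matrix.of_apply]
    rw [dif_neg (by omega)]
  · rw [← (Submodule.equivMapOfInjective (ex n s) hinj (sym s)).finrank_eq]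
    exact finrank_sym s

end Pool.Agent.E8helper36.PT
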